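import Pool.Agent.H369.PL.Stm

/-! Project CK, part PL1 (codimension): `dim (L_n ∩ I) = n - dim R/I` for `dim R/I < n`, genus one. -/

set_option autoImplicit false

namespace Pool.Agent.H215.PL

open Pool.Agent.TH549.CK Pool.Agent.H369.SM Pool.Agent.H369.PL

/-- the order at infinity -/
theorem ordR {F : Type} [Field F] (R : Subalgebra F (LaurentSeries F)) :
    P25.Ord (K := F) (A := R) (fun x => (x : LaurentSeries F).order) (Lp R) :=
  { mul := fun x y hx hy => HahnSeries.order_mul (fun h0 => hx (Subtype.ext h0))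
      (fun h0 => hy (Subtype.ext h0))
    mem := fun n x hx => by
      have hx' : (x : LaurentSeries F) ≠ 0 := fun h0 => hx (Subtype.ext h0)
      constructor
      · intro hm
        by_contra hlt
        exact HahnSeries.coeff_order_eq_zero.not.2 hx' (hm _ (not_le.1 hlt))
      · intro hm k hk
        exact HahnSeries.coeff_eq_zero_of_lt_order (lt_of_lt_of_le hk hm) }

section lin

variable {F A : Type} [Field F] [CommRing A] [Algebra F A]

/-- the dimension of the intersection with a smaller ideal -/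
theorem drop {I J : Ideal A} (hJI : J ≤ I) (V : Submodule F A) [FiniteDimensional F V]
    [FiniteDimensional F (A ⧸ J)] (hV : V ≤ I.restrictScalars F) :
    Module.finrank F V + Module.finrank F (A ⧸ I) ≤
      Module.finrank F ↥(V ⊓ J.restrictScalars F) + Module.finrank F (A ⧸ J) := by
  let π : A →ₗ[F] (A ⧸ J) := (Ideal.Quotient.mkₐ F J).toLinearMap
  let ρ : (A ⧸ J) →ₗ[F] (A ⧸ I) := (Ideal.Quotient.factorₐ F hJI).toLinearMap
  have hρ : Function.Surjective ρ := Ideal.Quotient.factor_surjective hJI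
  have h1 := LinearMap.finrank_range_add_finrank_ker ρ
  rw [LinearMap.range_eq_top.2 hρ, finrank_top] at h1
  have h2 := LinearMap.finrank_range_add_finrank_ker (π.domRestrict V)
  have h3 : LinearMap.range (π.domRestrict V) ≤ LinearMap.ker ρ := by
    rintro _ ⟨v, rfl⟩
    rw [LinearMap.mem_ker]
    exact Ideal.Quotient.eq_zero_iff_mem.2 (hV v.2)
  have h4 := Submodule.finrank_mono h3
  have h5 : Module.finrank F (LinearMap.ker (π.domRestrict V)) ≤
      Module.finrank F ↥(V ⊓ J.restrictScalars F) := by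
    have : FiniteDimensional F ↥(V ⊓ J.restrictScalars F) :=
      Submodule.finiteDimensional_of_le (inf_le_left (a := V) (b := J.restrictScalars F))
    let φ : LinearMap.ker (π.domRestrict V) →ₗ[F] ↥(V ⊓ J.restrictScalars F) :=
      { toFun := fun v => ⟨v.1.1, v.1.2, Ideal.Quotient.eq_zero_iff_mem.1 (LinearMap.mem_ker.1 v.2)⟩
        map_add' := fun v w => rfl
        map_smul' := fun c v => rfl }
    refine LinearMap.finrank_le_finrank_of_injective (f := φ) ?_
    intro v w hvw
    apply Subtype.ext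
    apply Subtype.ext
    have h6 := congrArg (fun z : ↥(V ⊓ J.restrictScalars F) => (z : A)) hvw
    exact h6
  omega

/-- the residue field at a maximal ideal -/
theorem max_dim [IsAlgClosed F] (𝔪 : Ideal A) (hmax : 𝔪.IsMaximal) [FiniteDimensional F (A ⧸ 𝔪)] :
    Module.finrank F (A ⧸ 𝔪) = 1 := by
  let _ : Field (A ⧸ 𝔪) := Ideal.Quotient.field 𝔪
  have hb := IsAlgClosed.algebraMap_bijective_of_isIntegral (k := F) (K := A ⧸ 𝔪)
  have h1 : (1 : A ⧸ 𝔪) ≠ 0 := one_ne_zero
  rw [finrank_eq_one_iff_of_nonzero' (1 : A ⧸ 𝔪) h1]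
  intro w
  obtain ⟨a, ha⟩ := hb.2 w
  exact ⟨a, by rw [← ha, Algebra.algebraMap_eq_smul_one]⟩

/-- a space of dimension one which contains `1` -/
theorem one_dim [Nontrivial A] (V : Submodule F A) (h1 : (1 : A) ∈ V)
    (h : Module.finrank F V = 1) (x : A) (hx : x ∈ V) : ∃ a : F, x = algebraMap F A a := by
  have h3 : (⟨1, h1⟩ : V) ≠ 0 := fun h0 => one_ne_zero (congrArg Subtype.val h0)
  obtain ⟨a, ha⟩ := (finrank_eq_one_iff_of_nonzero' (⟨1, h1⟩ : V) h3).1 h ⟨x, hx⟩
  refine ⟨a, ?_⟩
  rw [Algebra.algebraMap_eq_smul_one]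
  exact (congrArg (fun z : V => (z : A)) ha).symm

/-- an ideal contained in an ideal of the same codimension -/
theorem eq_of_codim {I J : Ideal A} (hIJ : I ≤ J) [FiniteDimensional F (A ⧸ I)]
    (h : Module.finrank F (A ⧸ I) ≤ Module.finrank F (A ⧸ J)) : J ≤ I := by
  have hsurj : Function.Surjective (Ideal.Quotient.factorₐ F hIJ).toLinearMap :=
    Ideal.Quotient.factor_surjective hIJ
  have hfd : FiniteDimensional F (A ⧸ J) := Module.Finite.of_surjective _ hsurj
  have h1 := LinearMap.finrank_le_finrank_of_surjective hsurj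
  have hinj := (LinearMap.injective_iff_surjective_of_finrank_eq_finrank
    (f := (Ideal.Quotient.factorₐ F hIJ).toLinearMap) (le_antisymm h h1)).2 hsurj
  intro x hx
  rw [← Ideal.Quotient.eq_zero_iff_mem]
  apply hinj
  rw [map_zero]
  exact Ideal.Quotient.eq_zero_iff_mem.2 hx

end lin

theorem codim : S_codim := by
  intro F _ _ _ R hR I hI
  obtain ⟨hded, hft⟩ := dedekind_of_smooth hR
  have H := ordR R
  have hg : ∀ n : ℕ, 2 * 1 ≤ n + 1 → Module.finrank F (Lp R n) = n + 1 - 1 := hR.genus
  have hL : ∀ n : ℕ, FiniteDimensional F (Lp R n) := fun n => P26.Lp_finite hR n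
  have hfin : ∀ J : Ideal R, J ≠ ⊥ → FiniteDimensional F (R ⧸ J) := by
    intro J hJ
    obtain ⟨f, hf, hf0⟩ := Submodule.exists_mem_ne_zero_of_ne_bot hJ
    obtain ⟨m, hm⟩ := P25.exists_deg H hg hf0
    exact P25.fin_of_le ((Ideal.span_singleton_le_iff_mem _).2 hf) (P25.quot_fin H hg hf0 hm).1
  have := hfin I hI
  refine ⟨inferInstance, fun n hn => ?_⟩
  set c := Module.finrank F (R ⧸ I) with hc
  have := hL n
  have hdn : Module.finrank F (Lp R n) = n := by
    have := hg n (by omega); omega
  -- the lower bound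
  have hlow : n ≤ Module.finrank F ↥(Lp R n ⊓ I.restrictScalars F) + c := by
    have h1 := drop (I := ⊤) (J := I) le_top (Lp R n) (fun x _ => Submodule.mem_top)
    omega
  -- the upper bound
  have hup : Module.finrank F ↥(Lp R n ⊓ I.restrictScalars F) ≤ n - c := by
    rcases Nat.lt_or_ge 1 n with hn1 | hn1
    swap
    · have h1 := Submodule.finrank_mono
        (inf_le_left : Lp R n ⊓ I.restrictScalars F ≤ Lp R n)
      rw [hdn] at h1
      omega
    by_contra hlt
    rw [not_le] at hlt
    -- a maximal ideal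
    obtain ⟨f₀, hf₀, hf₀'⟩ : ∃ f₀ : R, f₀ ≠ 0 ∧ ¬ IsUnit f₀ := by
      by_contra hcon
      push Not at hcon
      have h1 : Lp R n ≤ Lp R 0 := by
        intro f hf
        by_cases hf0 : f = 0
        · rw [hf0]; exact zero_mem _
        obtain ⟨u, hu⟩ := (hcon f hf0).exists_right_inv
        have hu0 : u ≠ 0 := fun h0 => by rw [h0, mul_zero] at hu; exact zero_ne_one hu
        have h2 := H.mul _ _ hf0 hu0
        rw [hu, P25.ord_one H] at h2
        have h3 := P25.order_nonpos H hg hu0
        rw [H.mem _ _ hf0]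
        push_cast
        omega
      have h4 : Module.finrank F (Lp R n) ≤ Module.finrank F (Lp R 1) := by
        have := hL 1
        exact Submodule.finrank_mono (h1.trans (P26.Lp_mono R (Nat.zero_le 1)))
      rw [hdn, hg 1 (by omega)] at h4
      omega
    obtain ⟨𝔪, hmax, hle⟩ := Ideal.exists_le_maximal (Ideal.span {f₀}) (by
      rw [Ne, Ideal.span_singleton_eq_top]; exact hf₀')
    have hm0 : 𝔪 ≠ ⊥ := by
      intro h0
      rw [h0, le_bot_iff, Ideal.span_singleton_eq_bot] at hle
      exact hf₀ hle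
    have := hfin 𝔪 hm0
    have hm1 : Module.finrank F (R ⧸ 𝔪) = 1 := max_dim 𝔪 hmax
    obtain ⟨k, hk⟩ : ∃ k, c + k + 1 = n := ⟨n - 1 - c, by omega⟩
    obtain ⟨hp1, hp2⟩ := P25.quot_pow (K := F) (A := R)
      (fun {_ _} h1 h2 h3 h4 => P25.quot_aux h1 h2 h3 h4) hm0 inferInstance k
    have := hp1
    obtain ⟨hq1, hq2⟩ := P25.quot_aux (K := F) hI (pow_ne_zero k hm0) inferInstance hp1
    rw [hp2, hm1, mul_one, ← hc] at hq2
    have := hq1
    set J := I * 𝔪 ^ k with hJ
    have hJI : J ≤ I := Ideal.mul_le_left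
    have hJ0 : J ≠ ⊥ := mul_ne_zero hI (pow_ne_zero k hm0)
    -- the intersection with `J` has dimension at least two
    have hd2 : 2 ≤ Module.finrank F ↥(Lp R n ⊓ J.restrictScalars F) := by
      have : FiniteDimensional F ↥(Lp R n ⊓ I.restrictScalars F) :=
        Submodule.finiteDimensional_of_le (inf_le_left (a := Lp R n) (b := I.restrictScalars F))
      have h1 := drop hJI (Lp R n ⊓ I.restrictScalars F) inf_le_right
      have h2 : Lp R n ⊓ I.restrictScalars F ⊓ J.restrictScalars F =
          Lp R n ⊓ J.restrictScalars F := by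
        rw [inf_assoc, inf_eq_right.2 (show J.restrictScalars F ≤ I.restrictScalars F from hJI)]
      rw [h2, hq2, ← hc] at h1
      omega
    have : FiniteDimensional F ↥(Lp R n ⊓ J.restrictScalars F) :=
      Submodule.finiteDimensional_of_le (inf_le_left (a := Lp R n) (b := J.restrictScalars F))
    have := hL (n - 1)
    -- an element of smaller degree
    obtain ⟨f, hfm, hf0⟩ : ∃ f ∈ Lp R n ⊓ J.restrictScalars F ⊓ Lp R (n - 1), f ≠ 0 := by
      apply Submodule.exists_mem_ne_zero_of_ne_bot
      intro hbot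
      have h1 := Submodule.finrank_sup_add_finrank_inf_eq (Lp R n ⊓ J.restrictScalars F)
        (Lp R (n - 1))
      rw [hbot, finrank_bot, hg (n - 1) (by omega)] at h1
      have h2 : (Lp R n ⊓ J.restrictScalars F) ⊔ Lp R (n - 1) ≤ Lp R n :=
        sup_le inf_le_left (P26.Lp_mono R (Nat.sub_le n 1))
      have h3 := Submodule.finrank_mono h2
      rw [hdn] at h3
      omega
    obtain ⟨m, hm⟩ := P25.exists_deg H hg hf0
    have hmn : m ≤ n - 1 := by
      have := (H.mem _ _ hf0).1 hfm.2
      rw [hm] at this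
      omega
    obtain ⟨hr1, hr2⟩ := P25.quot_fin H hg hf0 hm
    have := hr1
    have hfJ : Ideal.span {f} ≤ J := (Ideal.span_singleton_le_iff_mem _).2 hfm.1.2
    -- the ideal is principal
    have hJf : J ≤ Ideal.span {f} := by
      refine eq_of_codim (F := F) hfJ ?_
      rw [hq2]
      omega
    have hmk : c + k ≤ m := by
      have h1 := LinearMap.finrank_le_finrank_of_surjective
        (f := (Ideal.Quotient.factorₐ F hfJ).toLinearMap) (Ideal.Quotient.factor_surjective hfJ)
      rw [hq2] at h1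
      omega
    -- the elements of `L_1` are constant
    have hL1 : ∀ κ ∈ Lp R 1, ∃ a : F, κ = algebraMap F R a :=
      one_dim (Lp R 1) (P25.one_mem_L H 1) (by rw [hg 1 (by omega)])
    have hspan : Lp R n ⊓ J.restrictScalars F ≤ Submodule.span F {f} := by
      rintro x ⟨hx1, hx2⟩
      obtain ⟨κ, rfl⟩ := Ideal.mem_span_singleton'.1 (hJf hx2)
      by_cases hκ0 : κ = 0
      · rw [hκ0, zero_mul]; exact zero_mem _
      have h2 : κ ∈ Lp R 1 := by
        rw [H.mem _ _ hκ0]
        have h3 := (H.mem _ _ (mul_ne_zero hκ0 hf0)).1 hx1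
        rw [H.mul _ _ hκ0 hf0, hm] at h3
        push_cast
        omega
      obtain ⟨a, rfl⟩ := hL1 κ h2
      rw [← Algebra.smul_def]
      exact Submodule.smul_mem _ _ (Submodule.mem_span_singleton_self f)
    have h5 := Submodule.finrank_mono hspan
    have h6 := finrank_span_singleton (K := F) hf0
    omega
  omega

end Pool.Agent.H215.PL
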